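import Mathlib
import Pool.Agent.H14.Spider

set_option autoImplicit false

namespace Pool.Agent.Results.MP_6c5f5a_co.OneLeaf

/-- A tree of maximum degree 4 with a connected partition of every type. -/
def CPET {n : ℕ} (T : SimpleGraph (Fin n)) [DecidableRel T.Adj] : Prop :=
  T.IsTree ∧ T.maxDegree = 4 ∧ ∀ p : Nat.Partition n,
    ∃ P : Finpartition (Finset.univ : Finset (Fin n)),
      (∀ B ∈ P.parts, (T.induce (B : Set (Fin n))).Connected) ∧
        P.parts.val.map Finset.card = p.parts

/-- There is a CPET tree in which every vertex of degree 4 is adjacent to at most one leaf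
(the spider `S(16, 12, 2, 1)`). -/
theorem result : ∃ (n : ℕ) (T : SimpleGraph (Fin n)) (_ : DecidableRel T.Adj), CPET T ∧
    ∀ v, T.degree v = 4 → ((T.neighborFinset v).filter fun u => T.degree u = 1).card ≤ 1 := by
  refine ⟨32, H14.Spider.G, inferInstance,
    ⟨H14.Spider.tree, H14.Spider.maxdeg, H14.Spider.every_type⟩, ?_⟩
  simp only [H14.Spider.deg]
  decide +kernel

end Pool.Agent.Results.MP_6c5f5a_co.OneLeaf
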